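import Pool.Agent.Helper43.FV.SpecG

/-!
# Values of rational functions on a variety
-/

namespace Pool.Agent.Helper87.FV

open Pool.Agent.Helper43.FV
open MvPolynomial

section

variable {X : Type} {𝒜 : Atlas X} {K : Type} [Field K] [Algebra ℂ K]
  {cr : Fin 𝒜.k → MvPolynomial (Fin 𝒜.n) ℂ →ₐ[ℂ] K}

theorem GEV_ne (h : IsFunK 𝒜 cr) {i : Fin 𝒜.k} {x : X} (hx : x ∈ 𝒜.U i)
    {q : MvPolynomial (Fin 𝒜.n) ℂ} (hq : eval (𝒜.φ i x) q ≠ 0) : cr i q ≠ 0 := by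
  intro h0
  exact hq ((h.zero i q).mp h0 x hx)

theorem GEV_eq (h : IsFunK 𝒜 cr) {i : Fin 𝒜.k} {p q : MvPolynomial (Fin 𝒜.n) ℂ}
    (hpq : cr i p = cr i q) {x : X} (hx : x ∈ 𝒜.U i) :
    eval (𝒜.φ i x) p = eval (𝒜.φ i x) q := by
  have h1 : cr i (p - q) = 0 := by rw [map_sub, hpq, sub_self]
  have h2 := (h.zero i (p - q)).mp h1 x hx
  rw [map_sub] at h2
  exact sub_eq_zero.mp h2

/-- pulling back a polynomial through a change of charts -/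
theorem GEV_pull {i j : Fin 𝒜.k} {q₀ : MvPolynomial (Fin 𝒜.n) ℂ}
    {p₀ : Fin 𝒜.n → MvPolynomial (Fin 𝒜.n) ℂ}
    (h0 : ∀ y ∈ 𝒜.U i, eval (𝒜.φ i y) q₀ ≠ 0 → ∀ l, 𝒜.φ j y l * eval (𝒜.φ i y) q₀ =
      eval (𝒜.φ i y) (p₀ l)) (P : MvPolynomial (Fin 𝒜.n) ℂ) :
    ∃ (N : ℕ) (P' : MvPolynomial (Fin 𝒜.n) ℂ), ∀ y ∈ 𝒜.U i, eval (𝒜.φ i y) q₀ ≠ 0 →
      eval (𝒜.φ j y) P * (eval (𝒜.φ i y) q₀) ^ N = eval (𝒜.φ i y) P' := by
  induction P using MvPolynomial.induction_on with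
  | C a =>
    refine ⟨0, C a, fun y _ _ => ?_⟩
    simp
  | add p q hp hq =>
    obtain ⟨N, P', h1⟩ := hp
    obtain ⟨M, Q', h2⟩ := hq
    refine ⟨N + M, P' * q₀ ^ M + Q' * q₀ ^ N, fun y hy hy0 => ?_⟩
    rw [map_add, map_add, map_mul, map_mul, map_pow, map_pow, ← h1 y hy hy0, ← h2 y hy hy0]
    ring
  | mul_X p l hp =>
    obtain ⟨N, P', h1⟩ := hp
    refine ⟨N + 1, P' * p₀ l, fun y hy hy0 => ?_⟩
    rw [map_mul, map_mul, eval_X, ← h1 y hy hy0, ← h0 y hy hy0 l]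
    ring

/-- representation in a given chart -/
theorem GEV_rep (hX : IsNormalVariety 𝒜) (h : IsFunK 𝒜 cr) {f : K} {x : X} {c : ℂ}
    {i : Fin 𝒜.k} (hf : Ev cr f x c) (hx : x ∈ 𝒜.U i) :
    ∃ p q, eval (𝒜.φ i x) q ≠ 0 ∧ f * cr i q = cr i p ∧
      c * eval (𝒜.φ i x) q = eval (𝒜.φ i x) p := by
  obtain ⟨j, p', q', hxj, hq', hfq, hc⟩ := hf
  obtain ⟨q₀, p₀, hq₀, hreg⟩ := hX.trans i j x hx hxj
  simp only [id_eq] at hreg
  obtain ⟨N, pt, hpt⟩ := GEV_pull (fun y hy hy0 => (hreg y hy hy0).2) p'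
  obtain ⟨M, qt, hqt⟩ := GEV_pull (fun y hy hy0 => (hreg y hy hy0).2) q'
  have hne : eval (𝒜.φ i x) (qt * q₀ ^ N * q₀) ≠ 0 := by
    rw [map_mul, map_mul, map_pow, ← hqt x hx hq₀]
    exact mul_ne_zero (mul_ne_zero (mul_ne_zero hq' (pow_ne_zero _ hq₀)) (pow_ne_zero _ hq₀)) hq₀
  refine ⟨pt * q₀ ^ M * q₀, qt * q₀ ^ N * q₀, hne, ?_, ?_⟩
  · have hg := (h.glue i j (pt * q₀ ^ M * q₀) (qt * q₀ ^ N * q₀) p' q').mpr (by
      rintro y ⟨hy, -⟩
      by_cases hy0 : eval (𝒜.φ i y) q₀ = 0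
      · rw [map_mul, map_mul _ _ q₀, hy0]
        ring
      · rw [map_mul, map_mul, map_mul, map_mul, map_pow, map_pow, ← hpt y hy hy0,
          ← hqt y hy hy0]
        ring)
    have hq'0 : cr j q' ≠ 0 := GEV_ne h hxj hq'
    apply mul_right_cancel₀ hq'0
    rw [hg, ← hfq]
    ring
  · rw [map_mul, map_mul, map_mul, map_mul, map_pow, map_pow, ← hpt x hx hq₀, ← hqt x hx hq₀,
      ← hc]
    ring

theorem GEV_unique (hX : IsNormalVariety 𝒜) (h : IsFunK 𝒜 cr) {f : K} {x : X} {c c' : ℂ}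
    (h1 : Ev cr f x c) (h2 : Ev cr f x c') : c = c' := by
  obtain ⟨i, p, q, hx, hq, hfq, hc⟩ := h1
  obtain ⟨p', q', hq', hfq', hc'⟩ := GEV_rep hX h h2 hx
  have h3 : cr i (p * q') = cr i (p' * q) := by
    rw [map_mul, map_mul, ← hfq, ← hfq']
    ring
  have h4 := GEV_eq h h3 hx
  rw [map_mul, map_mul, ← hc, ← hc'] at h4
  apply mul_right_cancel₀ hq
  apply mul_right_cancel₀ hq'
  rw [h4]
  ring

end

theorem st_GEV : ST_GEV := by
  intro X 𝒜 hX K _ _ cr h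
  refine ⟨fun f x c c' h1 h2 => GEV_unique hX h h1 h2, ?_, ?_, ?_, ?_, ?_, ?_, ?_⟩
  · rintro f x c g d ⟨i, p, q, hx, hq, hfq, hc⟩ h2
    obtain ⟨p', q', hq', hgq', hd⟩ := GEV_rep hX h h2 hx
    refine ⟨i, p * q' + p' * q, q * q', hx, ?_, ?_, ?_⟩
    · rw [map_mul]
      exact mul_ne_zero hq hq'
    · rw [map_mul, map_add, map_mul, map_mul, ← hfq, ← hgq']
      ring
    · rw [map_mul, map_add, map_mul, map_mul, ← hc, ← hd]
      ring
  · rintro f x c g d ⟨i, p, q, hx, hq, hfq, hc⟩ h2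
    obtain ⟨p', q', hq', hgq', hd⟩ := GEV_rep hX h h2 hx
    refine ⟨i, p * p', q * q', hx, ?_, ?_, ?_⟩
    · rw [map_mul]
      exact mul_ne_zero hq hq'
    · rw [map_mul, map_mul, ← hfq, ← hgq']
      ring
    · rw [map_mul, map_mul, ← hc, ← hd]
      ring
  · rintro f x c ⟨i, p, q, hx, hq, hfq, hc⟩ hc0
    have hp : eval (𝒜.φ i x) p ≠ 0 := by
      rw [← hc]
      exact mul_ne_zero hc0 hq
    have hp0 : cr i p ≠ 0 := GEV_ne h hx hp
    have hf0 : f ≠ 0 := by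
      rintro rfl
      rw [zero_mul] at hfq
      exact hp0 hfq.symm
    refine ⟨i, q, p, hx, hp, ?_, ?_⟩
    · rw [← hfq, ← mul_assoc, inv_mul_cancel₀ hf0, one_mul]
    · rw [← hc, ← mul_assoc, inv_mul_cancel₀ hc0, one_mul]
  · intro x c
    obtain ⟨i, hx⟩ := hX.cover x
    refine ⟨i, C c, 1, hx, ?_, ?_, ?_⟩
    · rw [map_one]
      exact one_ne_zero
    · rw [map_one, mul_one]
      exact ((cr i).commutes c).symm
    · rw [map_one, mul_one, eval_C]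
  · intro i p x hx
    refine ⟨i, p, 1, hx, ?_, ?_, ?_⟩
    · rw [map_one]
      exact one_ne_zero
    · rw [map_one, mul_one]
    · rw [map_one, mul_one]
  · intro f x c i h1 hx
    exact GEV_rep hX h h1 hx
  · rintro f g ⟨i, x, hx, q, hq, hall⟩
    obtain ⟨p1, q1, hq1, hf1⟩ := h.frac i f
    obtain ⟨p2, q2, hq2, hg2⟩ := h.frac i g
    have hval : ∀ (f : K) (p1 q1 : MvPolynomial (Fin 𝒜.n) ℂ), f * cr i q1 = cr i p1 →
        ∀ y ∈ 𝒜.U i, ∀ c, Ev cr f y c →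
          c * eval (𝒜.φ i y) q1 = eval (𝒜.φ i y) p1 := by
      intro f p1 q1 hf1 y hy c hev
      obtain ⟨p', q', hq', hfq', hc'⟩ := GEV_rep hX h hev hy
      have h3 : cr i (p1 * q') = cr i (p' * q1) := by
        rw [map_mul, map_mul, ← hf1, ← hfq']
        ring
      have h4 := GEV_eq h h3 hy
      rw [map_mul, map_mul, ← hc'] at h4
      apply mul_right_cancel₀ hq'
      rw [h4]
      ring
    have hD : cr i ((p1 * q2 - p2 * q1) * q) = 0 := by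
      rw [h.zero]
      intro y hy
      by_cases hy0 : eval (𝒜.φ i y) q = 0
      · rw [map_mul, hy0, mul_zero]
      · obtain ⟨c, hc1, hc2⟩ := hall y hy hy0
        have h1 := hval f p1 q1 hf1 y hy c hc1
        have h2 := hval g p2 q2 hg2 y hy c hc2
        rw [map_mul, map_sub, map_mul, map_mul, ← h1, ← h2]
        ring
    rw [map_mul] at hD
    have hD' : cr i (p1 * q2 - p2 * q1) = 0 :=
      (mul_eq_zero.mp hD).resolve_right (GEV_ne h hx hq)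
    rw [map_sub, map_mul, map_mul, ← hf1, ← hg2] at hD'
    apply mul_right_cancel₀ hq1
    apply mul_right_cancel₀ hq2
    linear_combination hD'

end Pool.Agent.Helper87.FV
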