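import Pool.Agent.Helper43.FV.Spec

/-!
# Riemann's theorem for function fields of one variable
-/

namespace Pool.Agent.Helper87.FV

open Pool.Agent.Helper43.FV

section

variable {F : Type} [Field F] [Algebra ℂ F]

theorem RIE_dg_add (D E : Dv F) : dg (D + E) = dg D + dg E := by
  unfold dg
  exact Finsupp.sum_add_index' (fun _ => rfl) (fun _ _ _ => rfl)

theorem RIE_dg_neg (D : Dv F) : dg (-D) = -dg D := by
  have h := RIE_dg_add D (-D)
  rw [add_neg_cancel] at h
  have h0 : dg (0 : Dv F) = 0 := by unfold dg; exact Finsupp.sum_zero_index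
  omega

theorem RIE_dg_sub (D E : Dv F) : dg (D - E) = dg D - dg E := by
  rw [sub_eq_add_neg, RIE_dg_add, RIE_dg_neg]
  ring

theorem RIE_dg_single (w : Pl F) (n : ℤ) : dg (Finsupp.single w n : Dv F) = n := by
  unfold dg
  exact Finsupp.sum_single_index rfl

theorem RIE_dg_nonneg (D : Dv F) (h : ∀ w, 0 ≤ D w) : 0 ≤ dg D := by
  unfold dg
  exact Finset.sum_nonneg fun w _ => h w

theorem RIE_mono {D D' : Dv F} (h : ∀ w, D w ≤ D' w) : LL D ≤ LL D' := by
  intro f hf h0 w
  have := hf h0 w
  have := h w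
  omega

/-- one step -/
theorem RIE_step (hR : ST_RES) (hF : FF F) (D : Dv F) (w : Pl F) {f h : F}
    (hf : f ∈ LL (D + Finsupp.single w 1)) (hf' : f ∉ LL D)
    (hh : h ∈ LL (D + Finsupp.single w 1)) : ∃ c : ℂ, h - c • f ∈ LL D := by
  classical
  have hf0 : f ≠ 0 := by
    rintro rfl
    exact hf' (LL D).zero_mem
  have key : ∀ k : F, k ∈ LL (D + Finsupp.single w 1) → (k ≠ 0 → 0 ≤ w.1 k + D w) → k ∈ LL D := by
    intro k hk hkw h0 w'
    by_cases hw : w' = w
    · subst hw
      exact hkw h0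
    · have := hk h0 w'
      rw [Finsupp.add_apply, Finsupp.single_eq_of_ne hw, add_zero] at this
      exact this
  have hfw : w.1 f = -D w - 1 := by
    have h1 : ¬ (f ≠ 0 → 0 ≤ w.1 f + D w) := fun hcon => hf' (key f hf hcon)
    have h2 := hf hf0 w
    rw [Finsupp.add_apply, Finsupp.single_eq_same] at h2
    push Not at h1
    have := h1.2
    omega
  by_cases h0 : h = 0
  · refine ⟨0, ?_⟩
    subst h0
    simp
  by_cases hw : 0 ≤ w.1 h + D w
  · exact ⟨0, by simpa using key h hh fun _ => hw⟩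
  have hhw : w.1 h = w.1 f := by
    have h2 := hh h0 w
    rw [Finsupp.add_apply, Finsupp.single_eq_same] at h2
    omega
  have hq0 : h / f ≠ 0 := div_ne_zero h0 hf0
  have hq : w.1 (h / f) = 0 := by
    have := w.2.mul (h / f) f hq0 hf0
    rw [div_mul_cancel₀ _ hf0] at this
    omega
  obtain ⟨c, hc0, hc⟩ := hR F hF w (h / f) hq0 hq
  refine ⟨c, key _ ?_ ?_⟩
  · exact Submodule.sub_mem _ hh (Submodule.smul_mem _ c hf)
  · intro hne
    have heq : h - c • f = f * (h / f - algebraMap ℂ F c) := by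
      rw [Algebra.smul_def, mul_sub, mul_div_cancel₀ _ hf0]
      ring
    rw [heq] at hne ⊢
    have hne2 : h / f - algebraMap ℂ F c ≠ 0 := right_ne_zero_of_mul hne
    rw [w.2.mul _ _ hf0 hne2]
    rcases hc with hc | hc
    · exact absurd (sub_eq_zero.mpr hc) hne2
    · omega

theorem RIE_add_one (hR : ST_RES) (hF : FF F) (D : Dv F) (w : Pl F)
    (hfin : Module.Finite ℂ (LL D)) :
    Module.Finite ℂ (LL (D + Finsupp.single w 1)) ∧ ll (D + Finsupp.single w 1) ≤ ll D + 1 := by
  classical
  by_cases hle : LL (D + Finsupp.single w 1) ≤ LL D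
  · have h1 : FiniteDimensional ℂ (LL D) := hfin
    refine ⟨?_, ?_⟩
    · exact Submodule.finiteDimensional_of_le hle
    · unfold ll
      have := Submodule.finrank_mono hle
      omega
  · obtain ⟨f, hf, hf'⟩ := SetLike.not_le_iff_exists.mp hle
    have hle2 : LL (D + Finsupp.single w 1) ≤ LL D ⊔ Submodule.span ℂ {f} := by
      intro h hh
      obtain ⟨c, hc⟩ := RIE_step hR hF D w hf hf' hh
      have : h = (h - c • f) + c • f := by ring
      rw [this]
      exact Submodule.add_mem_sup hc
        (Submodule.smul_mem _ c (Submodule.mem_span_singleton_self f))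
    have h1 : FiniteDimensional ℂ (LL D) := hfin
    have h2 : FiniteDimensional ℂ (LL D ⊔ Submodule.span ℂ {f} : Submodule ℂ F) :=
      Submodule.finiteDimensional_sup _ _
    refine ⟨Submodule.finiteDimensional_of_le hle2, ?_⟩
    unfold ll
    have h3 := Submodule.finrank_mono hle2
    have h4 := Submodule.finrank_add_le_finrank_add_finrank (LL D) (Submodule.span ℂ {f})
    have h5 := finrank_span_singleton (K := ℂ) (v := f) (by
      rintro rfl
      exact hf' (LL D).zero_mem)
    omega

theorem RIE_add (hR : ST_RES) (hF : FF F) (n : ℕ) : ∀ D E : Dv F, (∀ w, 0 ≤ E w) →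
    dg E = n → Module.Finite ℂ (LL D) →
    Module.Finite ℂ (LL (D + E)) ∧ ll (D + E) ≤ ll D + n := by
  classical
  induction n with
  | zero =>
    intro D E hE hn hfin
    have hE0 : E = 0 := by
      ext w
      by_contra hne
      have hw : w ∈ E.support := Finsupp.mem_support_iff.mpr hne
      have h1 : E w ≤ dg E := by
        unfold dg Finsupp.sum
        exact Finset.single_le_sum (fun w _ => hE w) hw
      have h2 := hE w
      have h3 : E w ≠ 0 := hne
      simp only [Nat.cast_zero] at hn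
      omega
    subst hE0
    rw [add_zero]
    exact ⟨hfin, by simp⟩
  | succ n ih =>
    intro D E hE hn hfin
    have hex : ∃ w, 0 < E w := by
      by_contra hcon
      push Not at hcon
      have : dg E ≤ 0 := by
        unfold dg Finsupp.sum
        exact Finset.sum_nonpos fun w _ => hcon w
      rw [hn] at this
      push_cast at this
      omega
    obtain ⟨w, hw⟩ := hex
    have hE' : E = (E - Finsupp.single w 1) + Finsupp.single w 1 := by abel
    have hpos : ∀ w', 0 ≤ (E - Finsupp.single w 1 : Dv F) w' := by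
      intro w'
      rw [Finsupp.sub_apply]
      by_cases h : w' = w
      · subst h
        rw [Finsupp.single_eq_same]
        omega
      · rw [Finsupp.single_eq_of_ne h, sub_zero]
        exact hE w'
    have hdg : dg (E - Finsupp.single w 1) = n := by
      rw [RIE_dg_sub, RIE_dg_single, hn]
      push_cast
      ring
    obtain ⟨h1, h2⟩ := ih D (E - Finsupp.single w 1) hpos hdg hfin
    obtain ⟨h3, h4⟩ := RIE_add_one hR hF (D + (E - Finsupp.single w 1)) w h1
    rw [hE', ← add_assoc]
    refine ⟨h3, ?_⟩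
    push_cast
    omega

theorem RIE_neg (hDEG : ST_DEG) (hF : FF F) (D : Dv F) (hD : dg D < 0) : LL D = ⊥ := by
  rw [Submodule.eq_bot_iff]
  intro f hf
  by_contra hne
  obtain ⟨E, hE, hE0, -⟩ := hDEG F hF f hne
  have h1 : 0 ≤ dg (E + D) := by
    apply RIE_dg_nonneg
    intro w
    rw [Finsupp.add_apply, hE w]
    exact hf hne w
  rw [RIE_dg_add, hE0] at h1
  omega

theorem RIE_exists_place (hDEG : ST_DEG) (hF : FF F) : Nonempty (Pl F) := by
  obtain ⟨x, hx⟩ := hF.nonconst
  have hx0 : x ≠ 0 := by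
    intro h
    exact hx 0 (by rw [h, map_zero])
  obtain ⟨D, -, -, h⟩ := hDEG F hF x hx0
  obtain ⟨h1, h2⟩ := h hx
  by_contra hcon
  rw [not_nonempty_iff] at hcon
  have hD : D = 0 := by
    ext w
    exact hcon.elim w
  rw [hD, Finsupp.sum_zero_index] at h2
  omega

theorem RIE_finite (hDEG : ST_DEG) (hR : ST_RES) (hF : FF F) (D : Dv F) :
    Module.Finite ℂ (LL D) := by
  classical
  obtain ⟨w⟩ := RIE_exists_place hDEG hF
  set N : ℕ := (dg D + 1).toNat with hN
  have h1 : dg (D - Finsupp.single w (N : ℤ)) < 0 := by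
    rw [RIE_dg_sub, RIE_dg_single]
    omega
  have h2 : Module.Finite ℂ (LL (D - Finsupp.single w (N : ℤ))) := by
    rw [RIE_neg hDEG hF _ h1]
    infer_instance
  have h3 := (RIE_add hR hF N (D - Finsupp.single w (N : ℤ)) (Finsupp.single w (N : ℤ)) (by
    intro w'
    by_cases h : w' = w
    · subst h
      rw [Finsupp.single_eq_same]
      omega
    · rw [Finsupp.single_eq_of_ne h]) (RIE_dg_single w _) h2).1
  rwa [sub_add_cancel] at h3

/-- the defect is monotone -/
theorem RIE_defect_mono (hDEG : ST_DEG) (hR : ST_RES) (hF : FF F) {D D' : Dv F}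
    (h : ∀ w, D w ≤ D' w) : dg D - ll D ≤ dg D' - ll D' := by
  have h1 : 0 ≤ dg (D' - D) := RIE_dg_nonneg _ fun w => by
    rw [Finsupp.sub_apply]
    have := h w
    omega
  obtain ⟨n, hn⟩ := Int.eq_ofNat_of_zero_le h1
  have h2 := (RIE_add hR hF n D (D' - D) (fun w => by
    rw [Finsupp.sub_apply]
    have := h w
    omega) hn (RIE_finite hDEG hR hF D)).2
  rw [add_sub_cancel] at h2
  rw [RIE_dg_sub] at hn
  omega

/-- invariance under linear equivalence -/
theorem RIE_ll_equiv {D D' : Dv F} {f : F} (hf : f ≠ 0) (h : ∀ w : Pl F, D' w = D w + w.1 f) :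
    ll D' = ll D := by
  unfold ll
  have e : LL D' ≃ₗ[ℂ] LL D :=
    { toFun := fun k => ⟨k.1 * f, by
        intro h0 w
        have hk : k.1 ≠ 0 := left_ne_zero_of_mul h0
        rw [w.2.mul _ _ hk hf]
        have := k.2 hk w
        rw [h w] at this
        omega⟩
      map_add' := fun a b => by
        apply Subtype.ext
        push_cast
        ring
      map_smul' := fun c a => by
        apply Subtype.ext
        simp
      invFun := fun k => ⟨k.1 * f⁻¹, by
        intro h0 w
        have hk : k.1 ≠ 0 := left_ne_zero_of_mul h0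
        have h1 := k.2 hk w
        have h2 := w.2.mul (k.1 * f⁻¹) f h0 hf
        rw [mul_assoc, inv_mul_cancel₀ hf, mul_one] at h2
        rw [h w]
        omega⟩
      left_inv := fun a => by
        apply Subtype.ext
        simp [mul_assoc, mul_inv_cancel₀ hf]
      right_inv := fun a => by
        apply Subtype.ext
        simp [mul_assoc, inv_mul_cancel₀ hf] }
  exact_mod_cast e.finrank_eq

theorem RIE_exists_ne (D : Dv F) (h : 0 < ll D) : ∃ f ∈ LL D, f ≠ 0 := by
  by_contra hcon
  push Not at hcon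
  have : LL D = ⊥ := (Submodule.eq_bot_iff _).mpr hcon
  unfold ll at h
  rw [this, finrank_bot] at h
  simp at h

/-- if `ll (D - D₀) > 0`, the defect of `D₀` is at most the defect of `D` -/
theorem RIE_cmp (hDEG : ST_DEG) (hR : ST_RES) (hF : FF F) {D D₀ : Dv F}
    (h : 0 < ll (D - D₀)) : dg D₀ - ll D₀ ≤ dg D - ll D := by
  obtain ⟨f, hf, hf0⟩ := RIE_exists_ne _ h
  obtain ⟨E, hE, hE0, -⟩ := hDEG F hF f hf0
  have h1 : ∀ w, D₀ w ≤ (D + E) w := by
    intro w
    have := hf hf0 w
    rw [Finsupp.sub_apply] at this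
    rw [Finsupp.add_apply, hE w]
    omega
  have h2 := RIE_defect_mono hDEG hR hF h1
  have h3 : ll (D + E) = ll D := RIE_ll_equiv hf0 fun w => by
    rw [Finsupp.add_apply, hE w]
  rw [RIE_dg_add, hE0, h3] at h2
  omega

theorem RIE_transcendental {x : F} (hx : ∀ c : ℂ, x ≠ algebraMap ℂ F c) :
    Transcendental ℂ x := by
  intro halg
  have hint : IsIntegral ℂ x := halg.isIntegral
  have h := IsIntegral.mem_range_algebraMap_of_minpoly_splits (R := ℂ) (K := ℂ) (L := F)
    hint (IsAlgClosed.splits _)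
  obtain ⟨c, hc⟩ := h
  exact hx c hc.symm

/-- the pole divisor -/
theorem RIE_pole (hDEG : ST_DEG) (hF : FF F) {f : F} (hf : f ≠ 0) :
    ∃ P : Dv F, (∀ w, 0 ≤ P w) ∧ (∀ w : Pl F, 0 ≤ w.1 f + P w) ∧
      ((∀ c : ℂ, f ≠ algebraMap ℂ F c) →
        0 < Module.finrank (IntermediateField.adjoin ℂ {f}) F ∧
        dg P = (Module.finrank (IntermediateField.adjoin ℂ {f}) F : ℤ)) := by
  obtain ⟨D, hD, -, h⟩ := hDEG F hF f hf
  refine ⟨D.mapRange (fun n => max 0 (-n)) (by simp), ?_, ?_, ?_⟩
  · intro w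
    rw [Finsupp.mapRange_apply]
    exact le_max_left _ _
  · intro w
    rw [Finsupp.mapRange_apply, hD w]
    have := le_max_right 0 (-w.1 f)
    omega
  · intro hc
    obtain ⟨h1, h2⟩ := h hc
    refine ⟨h1, ?_⟩
    rw [← h2]
    unfold dg
    exact Finsupp.sum_mapRange_index (fun _ => rfl)

theorem RIE_w_pow (w : Pl F) {x : F} (hx : x ≠ 0) (i : ℕ) : w.1 (x ^ i) = i * w.1 x := by
  induction i with
  | zero =>
    rw [pow_zero]
    have := w.2.const 1
    rw [map_one] at this
    rw [this]
    simp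
  | succ i ih =>
    rw [pow_succ, w.2.mul _ _ (pow_ne_zero i hx) hx, ih]
    push_cast
    ring

/-- the defect is bounded -/
theorem RIE_bdd (hDEG : ST_DEG) (hR : ST_RES) (hF : FF F) :
    ∃ γ : ℤ, ∀ D : Dv F, dg D - ll D ≤ γ := by
  classical
  obtain ⟨x, hx⟩ := hF.nonconst
  have hx0 : x ≠ 0 := by
    intro h
    exact hx 0 (by rw [h, map_zero])
  obtain ⟨P, hP0, hP1, hP2⟩ := RIE_pole hDEG hF hx0
  obtain ⟨hn, hPn⟩ := hP2 hx
  set L := IntermediateField.adjoin ℂ {x} with hL
  have hxL : x ∈ L := IntermediateField.mem_adjoin_simple_self ℂ x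
  have : FiniteDimensional L F := Module.finite_of_finrank_pos hn
  set n := Module.finrank L F with hndef
  let b := Module.finBasis L F
  have hb0 : ∀ j, b j ≠ 0 := fun j => b.ne_zero j
  choose Q hQ0 hQ1 hQ2 using fun j => RIE_pole hDEG hF (hb0 j)
  set C : Dv F := ∑ j, Q j with hC
  have hC1 : ∀ j (w : Pl F), Q j w ≤ C w := by
    intro j w
    rw [hC, Finsupp.finsetSum_apply]
    exact Finset.single_le_sum (f := fun j => Q j w) (fun i _ => hQ0 i w) (Finset.mem_univ j)
  -- the independent functions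
  have hmem : ∀ (m : ℕ) (ij : Fin (m + 1) × Fin n),
      x ^ (ij.1 : ℕ) * b ij.2 ∈ LL ((m : ℤ) • P + C) := by
    rintro m ⟨i, j⟩ - w
    rw [w.2.mul _ _ (pow_ne_zero _ hx0) (hb0 j), RIE_w_pow w hx0, Finsupp.add_apply,
      Finsupp.smul_apply, smul_eq_mul]
    have h1 := hP1 w
    have h2 := hQ1 j w
    have h3 := hC1 j w
    have h4 := hP0 w
    have h5 : ((i : ℕ) : ℤ) ≤ m := by
      have := i.2
      omega
    have h6 : (0 : ℤ) ≤ ((i : ℕ) : ℤ) := by positivity
    have h7 : 0 ≤ ((i : ℕ) : ℤ) * (w.1 x + P w) := mul_nonneg h6 h1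
    have h8 : 0 ≤ ((m : ℤ) - ((i : ℕ) : ℤ)) * P w := mul_nonneg (by omega) h4
    nlinarith
  have hcount : ∀ m : ℕ, ((m : ℤ) + 1) * n ≤ ll ((m : ℤ) • P + C) := by
    intro m
    have : FiniteDimensional ℂ (LL ((m : ℤ) • P + C)) := RIE_finite hDEG hR hF _
    have hli : LinearIndependent ℂ
        (fun ij : Fin (m + 1) × Fin n => (⟨x ^ (ij.1 : ℕ) * b ij.2, hmem m ij⟩ :
          LL ((m : ℤ) • P + C))) := by
      rw [← LinearMap.linearIndependent_iff (LL ((m : ℤ) • P + C)).subtype
        (Submodule.ker_subtype _)]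
      rw [Fintype.linearIndependent_iff]
      intro c hc
      simp only [Function.comp_apply, Submodule.subtype_apply] at hc
      have h1 : ∑ j, (∑ i : Fin (m + 1), (algebraMap ℂ L (c (i, j))) * (⟨x, hxL⟩ : L) ^ (i : ℕ)) •
          b j = 0 := by
        rw [← hc, Fintype.sum_prod_type_right]
        refine Finset.sum_congr rfl fun j _ => ?_
        rw [Finset.sum_smul]
        refine Finset.sum_congr rfl fun i _ => ?_
        rw [Algebra.smul_def, Algebra.smul_def, map_mul, map_pow]
        have e1 : algebraMap L F (⟨x, hxL⟩ : L) = x := rfl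
        have e2 : algebraMap L F (algebraMap ℂ L (c (i, j))) = algebraMap ℂ F (c (i, j)) := rfl
        rw [e1, e2]
        ring
      have h2 := (Fintype.linearIndependent_iff.mp b.linearIndependent) _ h1
      rintro ⟨i, j⟩
      have h3 := h2 j
      have htr := RIE_transcendental hx
      have h4 : Polynomial.aeval x (∑ i : Fin (m + 1),
          Polynomial.C (c (i, j)) * Polynomial.X ^ (i : ℕ)) = 0 := by
        have h5 := congrArg (algebraMap L F) h3
        rw [map_sum, map_zero] at h5
        rw [map_sum, ← h5]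
        refine Finset.sum_congr rfl fun i _ => ?_
        rw [map_mul, map_mul, map_pow, map_pow, Polynomial.aeval_C, Polynomial.aeval_X]
        rfl
      have h5 := (transcendental_iff.mp htr) _ h4
      have h6 := congrArg (fun p => Polynomial.coeff p (i : ℕ)) h5
      simp only [Polynomial.finsetSum_coeff, Polynomial.coeff_C_mul, Polynomial.coeff_X_pow,
        Polynomial.coeff_zero] at h6
      rw [Finset.sum_eq_single i] at h6
      · simpa using h6
      · intro i' _ hne
        rw [if_neg, mul_zero]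
        intro h
        exact hne (Fin.ext h.symm)
      · intro h
        exact absurd (Finset.mem_univ i) h
    have h1 := hli.fintype_card_le_finrank
    rw [Fintype.card_prod, Fintype.card_fin, Fintype.card_fin] at h1
    unfold ll
    exact_mod_cast h1
  have hdgm : ∀ m : ℕ, dg ((m : ℤ) • P + C) = m * n + dg C := by
    intro m
    rw [RIE_dg_add]
    congr 1
    rw [← hPn]
    unfold dg
    rw [Finsupp.sum_smul_index (fun _ => rfl), Finsupp.mul_sum]
  refine ⟨dg C - n, fun D => ?_⟩
  -- positive part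
  set Dp : Dv F := D.mapRange (fun n => max 0 n) (by simp) with hDp
  have hDp0 : ∀ w, 0 ≤ Dp w := by
    intro w
    rw [hDp, Finsupp.mapRange_apply]
    exact le_max_left _ _
  have hDDp : ∀ w, D w ≤ Dp w := by
    intro w
    rw [hDp, Finsupp.mapRange_apply]
    exact le_max_right _ _
  set m : ℕ := (dg Dp).toNat with hm
  have hpos : 0 < ll (((m : ℤ) • P + C) - Dp) := by
    have h1 := RIE_defect_mono hDEG hR hF (D := ((m : ℤ) • P + C) - Dp)
      (D' := (m : ℤ) • P + C) (fun w => by
        rw [Finsupp.sub_apply]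
        have := hDp0 w
        omega)
    rw [RIE_dg_sub] at h1
    have h2 := hcount m
    have h3 : dg Dp ≤ m := by omega
    have h4 : (1 : ℤ) ≤ n := by exact_mod_cast hn
    nlinarith
  have h1 := RIE_cmp hDEG hR hF hpos
  have h2 := RIE_defect_mono hDEG hR hF hDDp
  have h3 := hcount m
  have h4 := hdgm m
  nlinarith

end

theorem st_RIE (hDEG : ST_DEG) (hR : ST_RES) : ST_RIE := by
  intro F _ _ hF
  refine ⟨RIE_finite hDEG hR hF, ?_⟩
  obtain ⟨γ, hγ⟩ := RIE_bdd hDEG hR hF
  obtain ⟨d, ⟨D₀, hD₀⟩, hmax⟩ := Int.exists_greatest_of_bdd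
    (P := fun z => ∃ D : Dv F, dg D - ll D = z) ⟨γ, by
      rintro z ⟨D, rfl⟩
      exact hγ D⟩ ⟨_, 0, rfl⟩
  have hle : ∀ D : Dv F, dg D - ll D ≤ d := fun D => hmax _ ⟨D, rfl⟩
  refine ⟨d + 1, dg D₀ + (d + 1), fun D => ?_, fun D hD => ?_⟩
  · have := hle D
    omega
  · have h1 := hle (D - D₀)
    rw [RIE_dg_sub] at h1
    have h2 := RIE_cmp hDEG hR hF (D := D) (D₀ := D₀) (by omega)
    have h3 := hle D
    omega

end Pool.Agent.Helper87.FV
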